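import Pool.Agent.Helper57_SOS.Blk3

/-!
# Checks with small memory (helper13, for MP_37fa12_co)

`chk` and `chkP` evaluate the polynomials at the Kronecker point term by term, with full size
partial sums, and the digits of the remainder one after the other.  Here the same facts follow from
nested Horner sums (`fP`, `fN`; the most significant variable is the outer one) and from the digits
of short chunks (`dgA`), in separate statements.
-/

set_option autoImplicit false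

namespace Pool.Agent.Helper13_KRO.FChk

open Pool.Agent.SOS Pool.Agent.H27KRO Pool.Agent.SOS.H57

/-! ### digits by chunks -/

theorem dg_app (z β : ℕ) (hz : 0 < z) : ∀ (m f n r : ℕ), dg z β m n = true → dg z β f r = true →
    dg z β (f + m) (n + z ^ m * r) = true
  | 0, f, n, r, h1, h2 => by
    have h3 : n = 0 := Nat.eq_of_beq_eq_true h1
    rw [h3, pow_zero, one_mul, Nat.zero_add]
    exact h2
  | m + 1, f, n, r, h1, h2 => by
    simp only [dg, Bool.and_eq_true] at h1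
    have e1 : (n + z ^ (m + 1) * r) % z = n % z := by
      rw [pow_succ', mul_assoc, Nat.add_mul_mod_self_left]
    have e2 : (n + z ^ (m + 1) * r) / z = n / z + z ^ m * r := by
      rw [pow_succ', mul_assoc, Nat.add_mul_div_left _ _ hz]
    have h3 := dg_app z β hz m f (n / z) r h1.2 h2
    show (Nat.ble ((n + z ^ (m + 1) * r) % z) β &&
      dg z β (f + m) ((n + z ^ (m + 1) * r) / z)) = true
    rw [e1, e2, h3, h1.1]
    rfl

/-- the digits of all chunks are small -/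
def dgA (z β m : ℕ) : List ℕ → Bool
  | [] => true
  | n :: l => dg z β m n && dgA z β m l

theorem dgA_dg {K β m : ℕ} : ∀ {l : List ℕ}, dgA (2 ^ K) β m l = true →
    dg (2 ^ K) β (m * l.length) (jn (K * m) l) = true
  | [], _ => rfl
  | n :: l, h => by
    simp only [dgA, Bool.and_eq_true] at h
    have e : jn (K * m) (n :: l) = n + (2 ^ K) ^ m * jn (K * m) l := by
      have e0 : jn (K * m) (n :: l) = n + Nat.shiftLeft (jn (K * m) l) (K * m) := rfl
      rw [e0, sl, ← pow_mul]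
      ring
    rw [e, List.length_cons, Nat.mul_succ]
    exact dg_app (2 ^ K) β (Nat.two_pow_pos K) m _ n _ h.1 (dgA_dg h.2)

/-- the digits of a number given by chunks -/
theorem dgA_of {K β m E D : ℕ} {l : List ℕ} (hD : D = jn (K * m) l) (hE : Nat.beq (m * l.length) E = true)
    (h : dgA (2 ^ K) β m l = true) : dg (2 ^ K) β E D = true := by
  rw [hD, ← Nat.eq_of_beq_eq_true hE]
  exact dgA_dg h

/-! ### Horner sums in natural numbers -/

/-- Horner sum -/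
noncomputable def hn {α : Type} (v : α → ℕ) (s : ℕ) (p : List α) : ℕ :=
  List.rec (motive := fun _ => ℕ) 0 (fun a _ ih => Nat.add (v a) (Nat.shiftLeft ih s)) p

/-- three levels -/
noncomputable def w3 (f : ℤ → ℕ) (s1 s2 s3 : ℕ) (p : D3) : ℕ :=
  hn (fun q : D2 => hn (fun r : D1 => hn f s3 r) s2 q) s1 p

theorem hn_sub {α : Type} {v v' : α → ℕ} {u : α → ℝ} (h : ∀ a, (v a : ℝ) - (v' a : ℝ) = u a)
    (s : ℕ) : ∀ p : List α, (hn v s p : ℝ) - (hn v' s p : ℝ) = hor u ((2 : ℝ) ^ s) p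
  | [] => by
    show ((0 : ℕ) : ℝ) - ((0 : ℕ) : ℝ) = 0
    simp
  | a :: p => by
    have e1 : hn v s (a :: p) = v a + Nat.shiftLeft (hn v s p) s := rfl
    have e2 : hn v' s (a :: p) = v' a + Nat.shiftLeft (hn v' s p) s := rfl
    rw [e1, e2, hor_cons, ← h a, ← hn_sub h s p, sl, sl]
    push_cast
    ring

theorem w3_sub (s1 s2 s3 : ℕ) (p : D3) : (w3 Int.toNat s1 s2 s3 p : ℝ) -
    (w3 (fun c => Int.toNat (-c)) s1 s2 s3 p : ℝ) =
      v3 p ((2 : ℝ) ^ s1) ((2 : ℝ) ^ s2) ((2 : ℝ) ^ s3) := by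
  have h0 : ∀ c : ℤ, ((Int.toNat c : ℕ) : ℝ) - ((Int.toNat (-c) : ℕ) : ℝ) = (c : ℝ) := by
    intro c
    have h : ((Int.toNat c : ℕ) : ℤ) - ((Int.toNat (-c) : ℕ) : ℤ) = c :=
      Int.toNat_sub_toNat_neg c
    have h2 : (((Int.toNat c : ℕ) : ℤ) : ℝ) - (((Int.toNat (-c) : ℕ) : ℤ) : ℝ) = (c : ℝ) := by
      rw [← Int.cast_sub, h]
    rw [← h2, Int.cast_natCast, Int.cast_natCast]
  exact hn_sub (fun q : D2 => hn_sub (fun r : D1 => hn_sub h0 s3 r) s2 q) s1 p

/-! ### the last variable outside -/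

/-- exchange of two variables -/
def tc2 : D1 → D2 → D2
  | [], p => p.map (fun q => (0 : ℤ) :: q)
  | a :: r, [] => [a] :: (r.map fun c => [c])
  | a :: r, q :: p => (a :: q) :: tc2 r p

/-- exchange of two variables -/
def sw2 : D2 → D2
  | [] => []
  | r :: p => tc2 r (sw2 p)

theorem v1_cons' (a : ℤ) (p : D1) (x : ℝ) : v1 (a :: p) x = (a : ℝ) + x * v1 p x := rfl

theorem v2_single (r : D1) (x y : ℝ) : v2 (r.map fun c => [c]) y x = v1 r y := by
  induction r with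
  | nil => rfl
  | cons a r ih =>
    rw [List.map_cons, v2_cons, ih, v1_cons', v1_cons']
    have h : v1 ([] : D1) x = 0 := rfl
    rw [h]
    ring

theorem v2_tc2 : ∀ (r : D1) (p : D2) (x y : ℝ), v2 (tc2 r p) y x = v1 r y + x * v2 p y x
  | [], p, x, y => by
    have h : v1 ([] : D1) y = 0 := rfl
    rw [tc2, h, zero_add]
    exact hor_map (v := fun q : D1 => v1 q x) (c := x) (fun q => by
      show v1 ((0 : ℤ) :: q) x = x * v1 q x
      rw [v1_cons', Int.cast_zero, zero_add]) y p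
  | a :: r, [], x, y => by
    have h : v1 ([] : D1) x = 0 := rfl
    have h2 : v2 ([] : D2) y x = 0 := rfl
    rw [tc2, v2_cons, v2_single, v1_cons', v1_cons', h, h2]
    ring
  | a :: r, q :: p, x, y => by
    rw [tc2, v2_cons, v2_tc2 r p x y, v1_cons', v1_cons', v2_cons]
    ring

theorem v2_sw2 : ∀ (p : D2) (x y : ℝ), v2 (sw2 p) y x = v2 p x y
  | [], _, _ => rfl
  | r :: p, x, y => by rw [sw2, v2_tc2, v2_sw2 p x y, v2_cons]

/-- the last variable outside -/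
def tk (p : D3) : D3 := swp (p.map sw2)

theorem v3_tk (p : D3) (x y z : ℝ) : v3 (tk p) z x y = v3 p x y z := by
  rw [tk, v3_swp]
  exact hor_map' (v := fun q : D2 => v2 q z y) (w := fun q : D2 => v2 q y z)
    (fun q => v2_sw2 q y z) x p

/-! ### the value at the Kronecker point -/

theorem ev_cast (a b c : ℤ) : ∀ p : List Tm,
    ((ev p a b c : ℤ) : ℝ) = ev p (a : ℝ) (b : ℝ) (c : ℝ)
  | [] => by simp [ev]
  | t :: p => by
    rw [ev_cons, ev_cons, Int.cast_add, ev_cast a b c p]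
    push_cast
    rfl

theorem kv_cast (K d1 d2 : ℕ) (p : List Tm) : ((kv K d1 d2 p : ℤ) : ℝ) =
    ev p ((2 : ℝ) ^ K) ((2 : ℝ) ^ (K * d1)) ((2 : ℝ) ^ (K * (d1 * d2))) := by
  rw [kv, ev_cast, pow_mul (2 : ℝ) K d1, pow_mul (2 : ℝ) K (d1 * d2)]
  push_cast
  rfl

/-- positive part -/
noncomputable def fP (K d1 d2 : ℕ) (p : D3) : ℕ :=
  w3 Int.toNat (K * (d1 * d2)) K (K * d1) (tk p)

/-- negative part -/
noncomputable def fN (K d1 d2 : ℕ) (p : D3) : ℕ :=
  w3 (fun c => Int.toNat (-c)) (K * (d1 * d2)) K (K * d1) (tk p)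

theorem f_kv (K d1 d2 : ℕ) (p : D3) :
    (fP K d1 d2 p : ℝ) - (fN K d1 d2 p : ℝ) = ((kv K d1 d2 (tm3 p) : ℤ) : ℝ) := by
  rw [kv_cast, ev_tm3, fP, fN, w3_sub, v3_tk]

theorem e_kv (K d1 d2 : ℕ) (p : List Tm) :
    (evP K d1 d2 p : ℝ) - (evN K d1 d2 p : ℝ) = ((kv K d1 d2 p : ℤ) : ℝ) := by
  rw [← evPN]
  push_cast
  rfl

/-! ### the checks -/

/-- **target without a pair part** -/
theorem chk_of {K d1 d2 H β E D : ℕ} {d : D3} {bs : List Blk}
    (h1 : (Nat.ble 1 d1 && (Nat.ble 1 d2 && Nat.ble 1 H)) = true)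
    (h2 : okT (d1 - 1) (d2 - 1) (tm3 d) = true)
    (h3 : allB K d1 d2 bs = true)
    (h4 : Nat.blt (n1 (tm3 d) + bnd H bs + β) (2 ^ K) = true)
    (h5 : Nat.beq (Nat.add (fP K d1 d2 d) (totN K d1 d2 bs))
      (Nat.add (Nat.add (fN K d1 d2 d) (totP K d1 d2 bs)) D) = true)
    (h6 : dg (2 ^ K) β E D = true) : chk K d1 d2 H β E D (tm3 d) bs = true := by
  have h7 : fP K d1 d2 d + totN K d1 d2 bs = (fN K d1 d2 d + totP K d1 d2 bs) + D :=
    Nat.eq_of_beq_eq_true h5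
  have h8 : evP K d1 d2 (tm3 d) + totN K d1 d2 bs =
      (evN K d1 d2 (tm3 d) + totP K d1 d2 bs) + D := by
    have e1 := f_kv K d1 d2 d
    have e2 := e_kv K d1 d2 (tm3 d)
    have e3 : ((fP K d1 d2 d + totN K d1 d2 bs : ℕ) : ℝ) =
      (((fN K d1 d2 d + totP K d1 d2 bs) + D : ℕ) : ℝ) := congrArg _ h7
    push_cast at e3
    have e4 : ((evP K d1 d2 (tm3 d) + totN K d1 d2 bs : ℕ) : ℝ) =
        (((evN K d1 d2 (tm3 d) + totP K d1 d2 bs) + D : ℕ) : ℝ) := by
      push_cast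
      linarith
    exact_mod_cast e4
  have h9 : Nat.beq (Nat.add (evP K d1 d2 (tm3 d)) (totN K d1 d2 bs))
      (Nat.add (Nat.add (evN K d1 d2 (tm3 d)) (totP K d1 d2 bs)) D) = true := by
    have : Nat.add (evP K d1 d2 (tm3 d)) (totN K d1 d2 bs) =
      Nat.add (Nat.add (evN K d1 d2 (tm3 d)) (totP K d1 d2 bs)) D := h8
    rw [this]
    exact Nat.beq_refl _
  unfold chk fin
  rw [h1, h2, h3, h4, h9, h6]
  rfl

/-- **target with the pair part `pp`** -/
theorem chk_pp {K d1 d2 H β E D : ℕ} {d pp : D3} {bs : List Blk}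
    (h1 : (Nat.ble 1 d1 && (Nat.ble 1 d2 && Nat.ble 1 H)) = true)
    (h2 : okT (d1 - 1) (d2 - 1) (scl 1 (tm3 d) ++ neg (tm3 pp)) = true)
    (h3 : allB K d1 d2 bs = true)
    (h4 : Nat.blt (n1 (scl 1 (tm3 d) ++ neg (tm3 pp)) + bnd H bs + β) (2 ^ K) = true)
    (h5 : Nat.beq (Nat.add (Nat.add (fP K d1 d2 d) (fN K d1 d2 pp)) (totN K d1 d2 bs))
      (Nat.add (Nat.add (Nat.add (fN K d1 d2 d) (fP K d1 d2 pp)) (totP K d1 d2 bs)) D) = true)
    (h6 : dg (2 ^ K) β E D = true) :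
    chk K d1 d2 H β E D (scl 1 (tm3 d) ++ neg (tm3 pp)) bs = true := by
  have h7 : (fP K d1 d2 d + fN K d1 d2 pp) + totN K d1 d2 bs =
      ((fN K d1 d2 d + fP K d1 d2 pp) + totP K d1 d2 bs) + D :=
    Nat.eq_of_beq_eq_true h5
  obtain ⟨P, hP⟩ : ∃ P, P = scl 1 (tm3 d) ++ neg (tm3 pp) := ⟨_, rfl⟩
  have hk : ((kv K d1 d2 P : ℤ) : ℝ) =
      ((kv K d1 d2 (tm3 d) : ℤ) : ℝ) - ((kv K d1 d2 (tm3 pp) : ℤ) : ℝ) := by
    rw [kv_cast, kv_cast, kv_cast, hP, ev_append, ev_neg, ev_scl]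
    push_cast
    ring
  have h8 : evP K d1 d2 P + totN K d1 d2 bs = (evN K d1 d2 P + totP K d1 d2 bs) + D := by
    have e1 := f_kv K d1 d2 d
    have e0 := f_kv K d1 d2 pp
    have e2 := e_kv K d1 d2 P
    have e3 : (((fP K d1 d2 d + fN K d1 d2 pp) + totN K d1 d2 bs : ℕ) : ℝ) =
      ((((fN K d1 d2 d + fP K d1 d2 pp) + totP K d1 d2 bs) + D : ℕ) : ℝ) := congrArg _ h7
    push_cast at e3
    have e4 : ((evP K d1 d2 P + totN K d1 d2 bs : ℕ) : ℝ) =
        (((evN K d1 d2 P + totP K d1 d2 bs) + D : ℕ) : ℝ) := by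
      push_cast
      linarith
    exact_mod_cast e4
  have h9 : Nat.beq (Nat.add (evP K d1 d2 P) (totN K d1 d2 bs))
      (Nat.add (Nat.add (evN K d1 d2 P) (totP K d1 d2 bs)) D) = true := by
    have : Nat.add (evP K d1 d2 P) (totN K d1 d2 bs) =
      Nat.add (Nat.add (evN K d1 d2 P) (totP K d1 d2 bs)) D := h8
    rw [this]
    exact Nat.beq_refl _
  rw [← hP] at h2 h4 ⊢
  unfold chk fin
  rw [h1, h2, h3, h4, h9, h6]
  rfl

/-- **the pair part** -/
theorem chkP_pp {K d1 d2 H : ℕ} {pp : D3} {bs : List PB}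
    (h1 : (Nat.ble 1 d1 && (Nat.ble 1 d2 && Nat.ble 1 H)) = true)
    (h2 : okT (d1 - 1) (d2 - 1) (tm3 pp) = true)
    (h3 : allP K d1 d2 bs = true)
    (h4 : Nat.blt (n1 (tm3 pp) + bndP H bs) (2 ^ K) = true)
    (h5 : Nat.beq (Nat.add (fP K d1 d2 pp) (ptN K d1 d2 bs))
      (Nat.add (fN K d1 d2 pp) (ptP K d1 d2 bs)) = true) :
    chkP K d1 d2 H (tm3 pp) bs = true := by
  have h7 : fP K d1 d2 pp + ptN K d1 d2 bs = fN K d1 d2 pp + ptP K d1 d2 bs :=
    Nat.eq_of_beq_eq_true h5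
  have h8 : evP K d1 d2 (tm3 pp) + ptN K d1 d2 bs = evN K d1 d2 (tm3 pp) + ptP K d1 d2 bs := by
    have e1 := f_kv K d1 d2 pp
    have e2 := e_kv K d1 d2 (tm3 pp)
    have e3 : ((fP K d1 d2 pp + ptN K d1 d2 bs : ℕ) : ℝ) =
      ((fN K d1 d2 pp + ptP K d1 d2 bs : ℕ) : ℝ) := congrArg _ h7
    push_cast at e3
    have e4 : ((evP K d1 d2 (tm3 pp) + ptN K d1 d2 bs : ℕ) : ℝ) =
        ((evN K d1 d2 (tm3 pp) + ptP K d1 d2 bs : ℕ) : ℝ) := by
      push_cast
      linarith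
    exact_mod_cast e4
  have h9 : Nat.beq (Nat.add (evP K d1 d2 (tm3 pp)) (ptN K d1 d2 bs))
      (Nat.add (evN K d1 d2 (tm3 pp)) (ptP K d1 d2 bs)) = true := by
    have : Nat.add (evP K d1 d2 (tm3 pp)) (ptN K d1 d2 bs) =
      Nat.add (evN K d1 d2 (tm3 pp)) (ptP K d1 d2 bs) := h8
    rw [this]
    exact Nat.beq_refl _
  unfold chkP
  rw [h1, h2, h3, h4, h9]
  rfl

/-! ### packed literals -/

/-- a dense polynomial from natural numbers `c + off` -/
def d3o (off : ℕ) (p : List (List (List ℕ))) : D3 :=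
  p.map fun q => q.map fun r => r.map fun c => Int.subNatNat c off

end Pool.Agent.Helper13_KRO.FChk
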