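import Pool.Agent.Helper13_KRO.LSC
import Pool.Agent.Helper57_SOS.Asm
set_option autoImplicit false
namespace Pool.Agent.Helper13_KRO.LSF
open Pool.Agent.SOS Pool.Agent.H27KRO Pool.Agent.SOS.H57

theorem pos (a b c : ℝ) (ha : 0 ≤ a) (hb : 0 ≤ b) (hc : 0 ≤ c) (hD : 0 ≤ ev pLS.D a b c) :
    0 ≤ ev (tm3 Pool.Agent.SOS.H4.dLS) a b c :=
  pos3' (p := pLS) LSC.ck LSC.bsOk LSC.gs a b c ha hb hc hD

end Pool.Agent.Helper13_KRO.LSF
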