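import Pool.Agent.Helper13_KRO.FChk
set_option autoImplicit false
namespace Pool.Agent.Helper13_KRO.LST
open Pool.Agent.SOS Pool.Agent.H27KRO Pool.Agent.Helper13_KRO.FChk

end Pool.Agent.Helper13_KRO.LST
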