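import Pool.Agent.Helper13_KRO.SSP0
import Pool.Agent.Helper13_KRO.SSP1
import Pool.Agent.Helper13_KRO.SSP2
import Pool.Agent.Helper13_KRO.SST
set_option autoImplicit false
namespace Pool.Agent.Helper13_KRO.SSQ
open Pool.Agent.SOS Pool.Agent.H27KRO Pool.Agent.SOS.H57 Pool.Agent.Helper13_KRO.FChk

def pbs : List PB := [SSP0.b, SSP1.b, SSP2.b]

def ys : List Ix := [⟨0x8000000000000000000000000000000000000, 0, 0, 0, false, false⟩, ⟨0x8000000000000000000000000000000000000, 0, 0, 0, false, false⟩, ⟨0x8000000000000000000000000000000000000, 0, 0, 0, false, false⟩]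

theorem h1 : (Nat.ble 1 22 && (Nat.ble 1 22 && Nat.ble 1 0x200000000000000)) = true := by decide +kernel

theorem h2 : okT (22 - 1) (22 - 1) (tm3 SST.pp) = true := by decide +kernel

theorem h3 : allP 304 22 22 pbs = true := by decide +kernel

theorem h4 : Nat.blt (n1 (tm3 SST.pp) + bndP 0x200000000000000 pbs) (2 ^ 304) = true := by decide +kernel

theorem h5 : Nat.beq (Nat.add (fP 304 22 22 SST.pp) (ptN 304 22 22 pbs))
  (Nat.add (fN 304 22 22 SST.pp) (ptP 304 22 22 pbs)) = true := by decide +kernel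

theorem ck : chkP 304 22 22 0x200000000000000 (tm3 SST.pp) pbs = true :=
  chkP_pp (K := 304) (d1 := 22) (d2 := 22) (H := 0x200000000000000) (pp := SST.pp) (bs := pbs) h1 h2 h3 h4 h5

theorem ps : psOk ⟨5, 5, 16, 0, 256⟩ pbs ys = true := by decide +kernel

theorem pbsOk : ∀ x ∈ pbs, PBOk 0x200000000000000 x := by
  intro x hx
  simp only [pbs, List.mem_cons, List.not_mem_nil, or_false] at hx
  rcases hx with rfl | rfl | rfl
  · exact SSP0.ok
  · exact SSP1.ok
  · exact SSP2.ok

end Pool.Agent.Helper13_KRO.SSQ
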