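import Pool.Agent.Helper13_KRO.SSC
import Pool.Agent.Helper13_KRO.SSQ
import Pool.Agent.Helper57_SOS.Asm
set_option autoImplicit false
namespace Pool.Agent.Helper13_KRO.SSF
open Pool.Agent.SOS Pool.Agent.H27KRO Pool.Agent.SOS.H57

theorem pos (a b c : ℝ) (ha : 0 ≤ a) (hb : 0 ≤ b) (hc : 0 ≤ c) (hD : 0 ≤ ev pSS.D a b c)
    (hu : 4 * ((pSS.q : ℝ) * c) ≤ ev pSS.u a b c ^ 2) : 0 ≤ ev (tm3 Pool.Agent.SOS.H4.dSS) a b c :=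
  pos3 (p := pSS) (s := 1) rfl SSC.ck SSC.bsOk SSC.gs SSQ.ck SSQ.pbsOk SSQ.ps a b c ha hb hc hD hu

end Pool.Agent.Helper13_KRO.SSF
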